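import Mathlib
import Pool.Agent.H6.IntA

namespace Pool.Agent.Results.MP_efce82_al.Dense

open Polynomial TensorProduct Pool.Agent.H6.IntA

section
variable (D K A : Type) [CommRing D] [Field K] [Algebra D K] [Ring A] [Algebra D A]

/-- The set `Int_K(A')`. -/
def intPP : Set K[X] := {f | ∀ b ∈ intEl D K A, aeval b f ∈ intEl D K A}

/-- The set of roots of minimal polynomials of elements of `S`. -/
def Omega (S : Set (K ⊗[D] A)) : Set (AlgebraicClosure K) :=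
  {z | ∃ b ∈ S, aeval z (minpoly K b) = 0}
end

abbrev A := Zsqrtd (-25)
abbrev B := ℚ ⊗[ℤ] A

noncomputable def th0 : A →+* ℂ := Zsqrtd.lift ⟨5 * Complex.I, by
  have := Complex.I_mul_I
  push_cast
  linear_combination 25 * this⟩

noncomputable def th : B →ₐ[ℚ] ℂ :=
  Algebra.TensorProduct.lift (Algebra.ofId ℚ ℂ) th0.toIntAlgHom (fun _ _ => Commute.all _ _)

theorem th_tmul (q : ℚ) (a : A) : th (q ⊗ₜ a) = q * (a.re + a.im * (5 * Complex.I)) := by
  simp [th, th0, Algebra.ofId_apply]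

theorem decomp (b : B) : ∃ x y : ℚ, b = x ⊗ₜ 1 + y ⊗ₜ (Zsqrtd.sqrtd : A) := by
  induction b using TensorProduct.induction_on with
  | zero => exact ⟨0, 0, by simp⟩
  | tmul q a =>
    refine ⟨a.re • q, a.im • q, ?_⟩
    rw [smul_tmul, smul_tmul, ← tmul_add]
    congr 1
    ext <;> simp
  | add b c hb hc =>
    obtain ⟨x, y, rfl⟩ := hb
    obtain ⟨x', y', rfl⟩ := hc
    exact ⟨x + x', y + y', by rw [add_tmul, add_tmul]; abel⟩

theorem th_dec (x y : ℚ) :
    th (x ⊗ₜ 1 + y ⊗ₜ (Zsqrtd.sqrtd : A)) = x + (5 * y : ℚ) * Complex.I := by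
  rw [map_add, th_tmul, th_tmul]; simp; ring

theorem th_inj : Function.Injective th := by
  rw [injective_iff_map_eq_zero]
  intro b hb
  obtain ⟨x, y, rfl⟩ := decomp b
  rw [th_dec] at hb
  have h1 := congrArg Complex.re hb
  have h2 := congrArg Complex.im hb
  simp at h1 h2
  simp [h1, h2]

theorem int_iff (b : B) : IsIntegral ℤ (th b) ↔ IsIntegral ℤ b :=
  isIntegral_algHom_iff (th.restrictScalars ℤ) th_inj

theorem rat_int {q : ℚ} (h : IsIntegral ℤ (q : ℂ)) : ∃ n : ℤ, (n : ℚ) = q :=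
  IsIntegrallyClosed.isIntegral_iff.mp
    ((isIntegral_algHom_iff (IsScalarTower.toAlgHom ℤ ℚ ℂ) (algebraMap ℚ ℂ).injective).mp h)

theorem gauss {x y : ℚ} (h : IsIntegral ℤ ((x : ℂ) + y * Complex.I)) :
    ∃ u v : ℤ, (u : ℚ) = x ∧ (v : ℚ) = y := by
  have hc : IsIntegral ℤ ((x : ℂ) - y * Complex.I) := by
    have := h.map (starRingEnd ℂ).toIntAlgHom
    simpa [sub_eq_add_neg] using this
  have hI : IsIntegral ℤ Complex.I := ⟨X ^ 2 + C 1, monic_X_pow_add_C _ two_ne_zero, by simp⟩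
  have hII := Complex.I_mul_I
  obtain ⟨u, hu⟩ := rat_int (q := 2 * x) (by
    have e : ((2 * x : ℚ) : ℂ) = (x + y * Complex.I) + (x - y * Complex.I) := by push_cast; ring
    rw [e]; exact h.add hc)
  obtain ⟨v, hv⟩ := rat_int (q := 2 * y) (by
    have e : ((2 * y : ℚ) : ℂ) = ((x - y * Complex.I) - (x + y * Complex.I)) * Complex.I := by
      push_cast; linear_combination 2 * (y : ℂ) * hII
    rw [e]; exact (hc.sub h).mul hI)
  obtain ⟨w, hw⟩ := rat_int (q := x ^ 2 + y ^ 2) (by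
    have e : ((x ^ 2 + y ^ 2 : ℚ) : ℂ) = (x + y * Complex.I) * (x - y * Complex.I) := by
      push_cast; linear_combination (y : ℂ) ^ 2 * hII
    rw [e]; exact h.mul hc)
  have e : u ^ 2 + v ^ 2 = 4 * w := by
    have : (u : ℚ) ^ 2 + v ^ 2 = 4 * w := by rw [hu, hv, hw]; ring
    exact_mod_cast this
  obtain ⟨a, ha | ha⟩ := Int.even_or_odd' u <;> obtain ⟨b, hb | hb⟩ := Int.even_or_odd' v
  · refine ⟨a, b, ?_, ?_⟩
    · rw [ha] at hu; push_cast at hu; linarith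
    · rw [hb] at hv; push_cast at hv; linarith
  all_goals
    exfalso
    subst ha hb
    ring_nf at e
    omega

theorem approx (p p' e : GaussianInt) (r : ℤ) (h5 : p * p' = 5) (h1 : p' + 1 = p * e)
    (h2 : p ∣ Zsqrtd.sqrtd - (r : GaussianInt)) (k : ℕ) (β : GaussianInt) : ∃ n : ℤ, p ^ k ∣ β - n := by
  have base : ∀ γ : GaussianInt, ∃ n : ℤ, p ∣ γ - n := by
    intro γ
    refine ⟨γ.re + γ.im * r, ?_⟩
    have : γ - ((γ.re + γ.im * r : ℤ) : GaussianInt) =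
        (Zsqrtd.sqrtd - (r : GaussianInt)) * (γ.im : GaussianInt) := by
      ext <;> simp <;> ring
    rw [this]
    exact h2.mul_right _
  induction k with
  | zero => exact ⟨0, by simp⟩
  | succ k ih =>
    obtain ⟨n, γ, hγ⟩ := ih
    obtain ⟨n0, h0⟩ := base γ
    refine ⟨n + 5 ^ k * (-1) ^ k * n0, ?_⟩
    have h3 : p ∣ (-p') ^ k - 1 := by
      have := sub_dvd_pow_sub_pow (-p') 1 k
      rw [one_pow] at this
      exact Dvd.dvd.trans ⟨-e, by linear_combination -h1⟩ this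
    have : β - ((n + 5 ^ k * (-1) ^ k * n0 : ℤ) : GaussianInt) =
        p ^ k * ((γ - n0) - ((-p') ^ k - 1) * n0) := by
      push_cast
      rw [← h5, neg_pow p', mul_pow]
      linear_combination hγ
    rw [this, pow_succ]
    exact mul_dvd_mul_left _ (h0.sub (h3.mul_right _))

theorem dense (f : ℚ[X]) (H : ∀ u v : ℤ, IsIntegral ℤ (aeval ((u : ℂ) + v * (5 * Complex.I)) f))
    (β : GaussianInt) : IsIntegral ℤ (aeval (β : ℂ) f) := by
  obtain ⟨c, hc0, hc⟩ := IsLocalization.integerNormalization_spec (nonZeroDivisors ℤ) f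
  set g := IsLocalization.integerNormalization (nonZeroDivisors ℤ) f
  have hcne : c ≠ 0 := nonZeroDivisors.ne_zero hc0
  have hG : ∀ z : GaussianInt, IsIntegral ℤ (z : ℂ) := fun z => by
    haveI : Module.Finite ℤ GaussianInt := Module.Finite.equiv
      (⟨⟨⟨fun p => ⟨p.1, p.2⟩, fun _ _ => rfl⟩, fun _ _ => by ext <;> simp⟩,
        fun z => (z.re, z.im), fun _ => rfl, fun _ => rfl⟩ : (ℤ × ℤ) ≃ₗ[ℤ] GaussianInt)
    exact (Algebra.IsIntegral.isIntegral (R := ℤ) z).map GaussianInt.toComplex.toIntAlgHom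
  have hev : ∀ z : GaussianInt, ((aeval z g : GaussianInt) : ℂ) = c * aeval (z : ℂ) f := by
    intro z
    have := aeval_algHom_apply GaussianInt.toComplex.toIntAlgHom z g
    simp only [RingHom.toIntAlgHom_coe] at this
    rw [← this, ← aeval_map_algebraMap ℚ, hc, map_zsmul, zsmul_eq_mul]
  have key : ∀ (α s t : GaussianInt), IsIntegral ℤ (aeval (α : ℂ) f) → s ∣ β - α →
      (c : GaussianInt) = s * t → IsIntegral ℤ (t * aeval (β : ℂ) f) := by
    intro α s t hα hs hst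
    have h1 : β - α ∣ aeval β g - aeval α g := by
      simpa [eval_map, aeval_def] using sub_dvd_eval_sub β α (g.map (algebraMap ℤ GaussianInt))
    obtain ⟨γ, hγ⟩ := hs.trans h1
    have h2 := congrArg GaussianInt.toComplex hγ
    have h3 := congrArg GaussianInt.toComplex hst
    rw [map_sub, hev, hev, map_mul] at h2
    rw [map_intCast, map_mul] at h3
    have hs0 : (s : ℂ) ≠ 0 := by
      intro h; rw [h, zero_mul] at h3; exact hcne (by exact_mod_cast h3)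
    have : (t : ℂ) * aeval (β : ℂ) f = t * aeval (α : ℂ) f + γ := by
      apply mul_left_cancel₀ hs0
      rw [h3] at h2
      linear_combination h2
    rw [this]
    exact ((hG t).mul hα).add (hG γ)
  obtain ⟨k, m, hm, hkm⟩ : ∃ (k : ℕ) (m : ℤ), ¬ (5 : ℤ) ∣ m ∧ c = 5 ^ k * m := by
    obtain ⟨k, m, h1, h2⟩ := WfDvdMonoid.max_power_factor hcne
      (Int.prime_iff_natAbs_prime.mpr (by norm_num) : Prime (5 : ℤ)).irreducible
    exact ⟨k, m, h1, h2⟩
  have hcop : IsCoprime (5 : ℤ) m :=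
    (Int.prime_iff_natAbs_prime.mpr (by norm_num) : Prime (5 : ℤ)).irreducible.coprime_iff_not_dvd.mpr hm
  have hint : ∀ n : ℤ, IsIntegral ℤ (aeval (((n : GaussianInt)) : ℂ) f) := fun n => by
    simpa using H n 0
  let p : GaussianInt := ⟨2, 1⟩
  let p' : GaussianInt := ⟨2, -1⟩
  have h5 : p * p' = 5 := by decide
  obtain ⟨n1, hn1⟩ := approx p p' ⟨1, -1⟩ (-2) h5 (by decide) ⟨1, by decide⟩ k β
  obtain ⟨n2, hn2⟩ := approx p' p ⟨1, 1⟩ 2 (by decide) (by decide) ⟨-1, by decide⟩ k β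
  have k1 := key n1 _ (m * p' ^ k) (hint n1) hn1 (by
    rw [hkm]; push_cast; rw [← h5, mul_pow]; ring)
  have k2 := key n2 _ (m * p ^ k) (hint n2) hn2 (by
    rw [hkm]; push_cast; rw [← h5, mul_pow]; ring)
  obtain ⟨a, b, hab⟩ := hcop
  have k3 := key ⟨β.re, 5 * (a * β.im)⟩ m (5 ^ k) (by
    convert H β.re (a * β.im) using 2
    rw [GaussianInt.toComplex_def']; push_cast; ring) ⟨⟨0, b * β.im⟩, by
      ext
      · simp
      · simp; linear_combination (-β.im) * hab⟩ (by rw [hkm]; push_cast; ring)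
  have c1 : IsCoprime (p ^ k) (p' ^ k) := IsCoprime.pow ⟨p, -⟨0, 2⟩, by decide⟩
  have c2 : IsCoprime ((5 : GaussianInt) ^ k) m := by
    refine IsCoprime.pow_left ⟨a, b, ?_⟩
    exact_mod_cast congrArg (Int.cast : ℤ → GaussianInt) hab
  obtain ⟨a1, b1, e1⟩ := c1
  obtain ⟨a2, b2, e2⟩ := c2
  have e3 : a2 * 5 ^ k + b2 * a1 * (m * p ^ k) + b2 * b1 * (m * p' ^ k) = 1 := by
    linear_combination e2 + b2 * m * e1
  have e4 := congrArg GaussianInt.toComplex e3
  have : aeval (β : ℂ) f = a2 * (((5 ^ k : GaussianInt) : ℂ) * aeval (β : ℂ) f) +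
      ((b2 * a1 : GaussianInt) : ℂ) * (((m * p ^ k : GaussianInt) : ℂ) * aeval (β : ℂ) f) +
      ((b2 * b1 : GaussianInt) : ℂ) * (((m * p' ^ k : GaussianInt) : ℂ) * aeval (β : ℂ) f) := by
    rw [map_add, map_add, map_mul _ a2, map_mul _ (b2 * a1), map_mul _ (b2 * b1), map_one] at e4
    linear_combination (-aeval (β : ℂ) f) * e4
  rw [this]
  exact (((hG _).mul k3).add ((hG _).mul k2)).add ((hG _).mul k1)

theorem finA : Module.Finite ℤ A := Module.Finite.equiv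
  (⟨⟨⟨fun p => ⟨p.1, p.2⟩, fun _ _ => rfl⟩, fun _ _ => by ext <;> simp⟩,
    fun z => (z.re, z.im), fun _ => rfl, fun _ => rfl⟩ : (ℤ × ℤ) ≃ₗ[ℤ] A)

theorem part1 : intAA ℤ ℚ A = intPP ℤ ℚ A := by
  haveI := finA
  ext f
  constructor
  · intro hf b hb
    obtain ⟨x, y, rfl⟩ := decomp b
    have h1 := (int_iff _).mpr hb
    rw [th_dec] at h1
    obtain ⟨u, v, hu, hv⟩ := gauss h1
    apply (int_iff _).mp
    rw [← aeval_algHom_apply, th_dec, ← hu, ← hv]
    convert dense f ?_ ⟨u, v⟩ using 2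
    · rw [GaussianInt.toComplex_def']; push_cast; ring
    · intro u v
      have := (int_iff _).mpr (hf _ ⟨⟨u, v⟩, rfl⟩)
      rw [← aeval_algHom_apply, th_tmul] at this
      simpa using this
  · rintro hf _ ⟨a, rfl⟩
    exact hf _ ((Algebra.IsIntegral.isIntegral (R := ℤ) a).map
      (Algebra.TensorProduct.includeRight : A →ₐ[ℤ] ℚ ⊗[ℤ] A))

theorem part2 : Omega ℤ ℚ A (imA ℤ ℚ A) ≠ Omega ℤ ℚ A (intEl ℤ ℚ A) := by
  intro h
  have hII := Complex.I_mul_I
  let b : B := (1 / 5 : ℚ) ⊗ₜ (Zsqrtd.sqrtd : A)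
  have hb : th b = Complex.I := by rw [th_tmul]; simp
  have hbI : IsIntegral ℤ b := (int_iff _).mp (by
    rw [hb]; exact ⟨X ^ 2 + C 1, monic_X_pow_add_C _ two_ne_zero, by simp⟩)
  haveI : Nontrivial B := th.toRingHom.domain_nontrivial
  obtain ⟨z, hz⟩ := IsAlgClosed.exists_aeval_eq_zero (AlgebraicClosure ℚ) (minpoly ℚ b)
    (minpoly.degree_pos hbI.tower_top).ne'
  have hz2 : z ^ 2 + 1 = 0 := by
    have hd : minpoly ℚ b ∣ X ^ 2 + 1 := minpoly.dvd _ _ (th_inj (by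
      rw [← aeval_algHom_apply, hb]; simp))
    simpa using aeval_eq_zero_of_dvd_aeval_eq_zero hd hz
  have hmem : z ∈ Omega ℤ ℚ A (intEl ℤ ℚ A) := ⟨b, hbI, hz⟩
  rw [← h] at hmem
  obtain ⟨_, ⟨a, rfl⟩, ha⟩ := hmem
  have hd : minpoly ℚ ((1 : ℚ) ⊗ₜ[ℤ] a : B) ∣
      X ^ 2 - C (2 * a.re : ℚ) * X + C (a.re ^ 2 + 25 * a.im ^ 2 : ℚ) :=
    minpoly.dvd _ _ (th_inj (by
      rw [← aeval_algHom_apply, th_tmul]; simp
      linear_combination 25 * (a.im : ℂ) ^ 2 * hII))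
  have h3 := aeval_eq_zero_of_dvd_aeval_eq_zero hd ha
  simp at h3
  have h4 : ((a.re ^ 2 + 25 * a.im ^ 2 - 1) ^ 2 + 4 * a.re ^ 2 : ℤ) = 0 := by
    have : (((a.re ^ 2 + 25 * a.im ^ 2 - 1) ^ 2 + 4 * a.re ^ 2 : ℤ) : AlgebraicClosure ℚ) = 0 := by
      push_cast
      linear_combination ((a.re : AlgebraicClosure ℚ) ^ 2 + 25 * a.im ^ 2 - 1 + 2 * a.re * z) *
        (h3 - hz2) + 4 * (a.re : AlgebraicClosure ℚ) ^ 2 * hz2
    exact_mod_cast this
  have h5 : a.re = 0 := by nlinarith [sq_nonneg (a.re ^ 2 + 25 * a.im ^ 2 - 1), sq_nonneg a.re]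
  rw [h5] at h4
  have h6 : 25 * a.im ^ 2 - 1 = 0 := by
    apply pow_eq_zero_iff (two_ne_zero) |>.mp
    linear_combination h4
  omega

theorem result : ∃ (A : Type) (_ : CommRing A), Function.Injective (algebraMap ℤ A) ∧
    Module.IsTorsionFree ℤ A ∧ Module.Finite ℤ A ∧
    intAA ℤ ℚ A = intPP ℤ ℚ A ∧ Omega ℤ ℚ A (imA ℤ ℚ A) ≠ Omega ℤ ℚ A (intEl ℤ ℚ A) := by
  refine ⟨A, inferInstance, Int.cast_injective, ?_, finA, part1, part2⟩
  refine Module.IsTorsionFree.of_smul_eq_zero fun r a h => ?_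
  have h1 := congrArg Zsqrtd.re h
  have h2 := congrArg Zsqrtd.im h
  simp at h1 h2
  by_cases hr : r = 0
  · exact Or.inl hr
  · right; ext <;> simp_all

end Pool.Agent.Results.MP_efce82_al.Dense
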